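import Pool.Agent.N848.LT.Stm

set_option autoImplicit false
set_option linter.all false

/-!
Project LT (helper848), part EXN (helper667): in the cubic field of discriminant 148 the seven
nontrivial classes of units modulo squares are ramified above 2. Everything is computed in the
basis `1, π, π ^ 2` with `π = α - 1`, `π ^ 3 = 2 + 2 π - 2 π ^ 2`.
-/

namespace Pool.Agent.N667.LT

open NumberField IsDedekindDomain Module Pool.Agent.N848.LT

/-- product of two elements in the basis `1, π, π ^ 2` -/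
def mulT {R : Type} [CommRing R] (x y : R × R × R) : R × R × R :=
  (x.1 * y.1 + 2 * (x.2.1 * y.2.2 + x.2.2 * y.2.1) - 4 * (x.2.2 * y.2.2),
    x.1 * y.2.1 + x.2.1 * y.1 + 2 * (x.2.1 * y.2.2 + x.2.2 * y.2.1) - 2 * (x.2.2 * y.2.2),
    x.1 * y.2.2 + x.2.1 * y.2.1 + x.2.2 * y.1 - 2 * (x.2.1 * y.2.2 + x.2.2 * y.2.1) +
      6 * (x.2.2 * y.2.2))

/-- the value of a triple -/
def ev {k : Type} [CommRing k] (π : k) (x : ℤ × ℤ × ℤ) : k :=
  (x.1 : k) + (x.2.1 : k) * π + (x.2.2 : k) * π ^ 2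

theorem ev_mul {k : Type} [CommRing k] {π : k} (hπ : π ^ 3 = 2 + 2 * π - 2 * π ^ 2)
    (x y : ℤ × ℤ × ℤ) : ev π (mulT x y) = ev π x * ev π y := by
  unfold ev mulT
  push_cast
  linear_combination (-((x.2.1 : k) * y.2.2 + x.2.2 * y.2.1) - (x.2.2 : k) * y.2.2 * π +
    2 * ((x.2.2 : k) * y.2.2)) * hπ

/-- the seven classes -/
def cls : Fin 7 → ℤ × ℤ × ℤ
  | 0 => (-1, 1, 0)
  | 1 => (1, 1, 0)
  | 2 => (-1, 0, 1)
  | 3 => (-1, 0, 0)
  | 4 => (1, -1, 0)
  | 5 => (-1, -1, 0)
  | 6 => (1, 0, -1)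

/-- reduction modulo four -/
def red (x : ℤ × ℤ × ℤ) : ZMod 4 × ZMod 4 × ZMod 4 := ((x.1 : ZMod 4), (x.2.1 : ZMod 4), (x.2.2 : ZMod 4))

theorem red_mul (x y : ℤ × ℤ × ℤ) : red (mulT x y) = mulT (red x) (red y) := by
  unfold red mulT
  push_cast
  rfl

set_option maxRecDepth 100000 in
theorem check : ∀ (i : Fin 7) (a b c : ZMod 4),
    mulT (red (cls i)) (mulT (a, b, c) (a, b, c)) ≠ (1, 0, 0) := by
  decide

section val

variable {k : Type} [Field k] [NumberField k] {α : k} (hα : α ^ 3 - α ^ 2 - 3 * α + 1 = 0)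
  (v : HeightOneSpectrum (𝓞 k)) (h2 : (2 : 𝓞 k) ∈ v.asIdeal)

include hα

theorem pi_eq : (α - 1) ^ 3 = 2 + 2 * (α - 1) - 2 * (α - 1) ^ 2 := by
  linear_combination hα

theorem int_alpha : IsIntegral ℤ α := by
  refine ⟨Polynomial.X ^ 3 - Polynomial.X ^ 2 - 3 * Polynomial.X + 1, ?_, ?_⟩
  · monicity!
  · simp only [Polynomial.eval₂_add, Polynomial.eval₂_sub, Polynomial.eval₂_mul,
      Polynomial.eval₂_pow, Polynomial.eval₂_X, Polynomial.eval₂_one, Polynomial.eval₂_ofNat]
    exact hα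

theorem val_alpha : v.valuation k α ≤ 1 :=
  v.valuation_le_one (K := k) (⟨α, int_alpha hα⟩ : 𝓞 k)

omit hα in
theorem val_int (z : ℤ) : v.valuation k (z : k) ≤ 1 := by
  have h : v.valuation k (algebraMap (𝓞 k) k ((z : ℤ) : 𝓞 k)) ≤ 1 := v.valuation_le_one _
  rwa [map_intCast] at h

include h2

omit hα in
theorem val_two : v.valuation k (2 : k) < 1 := by
  have h : v.valuation k (algebraMap (𝓞 k) k (2 : 𝓞 k)) < 1 :=
    (v.valuation_lt_one_iff_mem (K := k) (2 : 𝓞 k)).2 h2
  rwa [map_ofNat] at h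

omit hα in
theorem even_le {z : ℤ} (hz : (2 : ℤ) ∣ z) : v.valuation k (z : k) ≤ v.valuation k 2 := by
  obtain ⟨t, rfl⟩ := hz
  push_cast
  rw [map_mul]
  exact mul_le_of_le_one_right' (val_int v t)

omit hα in
theorem odd_eq {z : ℤ} (hz : ¬ (2 : ℤ) ∣ z) : v.valuation k (z : k) = 1 := by
  have h1 : (2 : ℤ) ∣ z - 1 := by omega
  have h3 := (even_le v h2 h1).trans_lt (val_two v h2)
  have h4 : (z : k) = 1 + ((z - 1 : ℤ) : k) := by push_cast; ring
  rw [h4]
  exact Valuation.map_one_add_of_lt _ h3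

omit hα in
theorem even_of {z : ℤ} (hz : v.valuation k (z : k) < 1) : (2 : ℤ) ∣ z := by
  by_contra h
  rw [odd_eq v h2 h] at hz
  exact lt_irrefl _ hz

theorem val_pi : v.valuation k (α - 1) < 1 ∧ v.valuation k (α - 1) ≠ 0 ∧
    v.valuation k (α - 1) ^ 3 = v.valuation k 2 := by
  have h1 : v.valuation k (α - 1) ≤ 1 := by
    refine (Valuation.map_sub _ _ _).trans (max_le (val_alpha hα v) ?_)
    rw [map_one]
  have hε : v.valuation k (1 + (α - 1) - (α - 1) ^ 2) ≤ 1 := by
    refine (Valuation.map_sub _ _ _).trans (max_le ?_ ?_)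
    · refine (Valuation.map_add _ _ _).trans (max_le ?_ h1)
      rw [map_one]
    · rw [map_pow]
      exact pow_le_one' h1 2
  have h3 : v.valuation k (α - 1) ^ 3 =
      v.valuation k 2 * v.valuation k (1 + (α - 1) - (α - 1) ^ 2) := by
    rw [← map_pow, ← map_mul, pi_eq hα]
    congr 1
    ring
  have h4 : v.valuation k (α - 1) < 1 := by
    by_contra h
    have h5 : v.valuation k (α - 1) = 1 := le_antisymm h1 (not_lt.1 h)
    rw [h5, one_pow] at h3
    have h6 : v.valuation k 2 * v.valuation k (1 + (α - 1) - (α - 1) ^ 2) < 1 :=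
      (mul_le_of_le_one_right' hε).trans_lt (val_two v h2)
    rw [← h3] at h6
    exact lt_irrefl _ h6
  have h5 : v.valuation k (1 + (α - 1) - (α - 1) ^ 2) = 1 := by
    have e : 1 + (α - 1) - (α - 1) ^ 2 = 1 + (α - 1) * (1 - (α - 1)) := by ring
    rw [e]
    refine Valuation.map_one_add_of_lt _ ?_
    rw [map_mul]
    have h6 : v.valuation k (1 - (α - 1)) ≤ 1 := by
      refine (Valuation.map_sub _ _ _).trans (max_le ?_ h1)
      rw [map_one]
    exact (mul_le_of_le_one_right' h6).trans_lt h4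
  rw [h5, mul_one] at h3
  refine ⟨h4, fun h0 => ?_, h3⟩
  rw [h0, zero_pow (by norm_num)] at h3
  have := (Valuation.ne_zero_iff (v.valuation k)).2 (two_ne_zero (α := k))
  exact this h3.symm

theorem step {x : ℤ × ℤ × ℤ} (h : v.valuation k (ev (α - 1) x) ≤ v.valuation k 2) :
    (2 : ℤ) ∣ x.1 ∧ (2 : ℤ) ∣ x.2.1 ∧ (2 : ℤ) ∣ x.2.2 := by
  obtain ⟨c0, c1, c2⟩ := x
  obtain ⟨g1, g0, g3⟩ := val_pi hα v h2
  unfold ev at h
  simp only at h ⊢
  set w := v.valuation k with hw
  set π := α - 1 with hπ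
  have hw2 := val_two v h2
  rw [← hw] at hw2
  have hpos : 0 < w π := zero_lt_iff.2 g0
  have hc2 : w ((c2 : k) * π) ≤ 1 := by
    rw [map_mul]
    exact mul_le_one' (val_int v c2) g1.le
  have hc12 : w ((c1 : k) + (c2 : k) * π) ≤ 1 :=
    (Valuation.map_add _ _ _).trans (max_le (val_int v c1) hc2)
  have e1 : (c1 : k) * π + (c2 : k) * π ^ 2 = π * ((c1 : k) + (c2 : k) * π) := by ring
  have hb : w ((c1 : k) * π + (c2 : k) * π ^ 2) < 1 := by
    rw [e1, map_mul]
    exact (mul_le_of_le_one_right' hc12).trans_lt g1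
  have d0 : (2 : ℤ) ∣ c0 := by
    apply even_of v h2
    have e2 : (c0 : k) = ((c0 : k) + (c1 : k) * π + (c2 : k) * π ^ 2) -
        ((c1 : k) * π + (c2 : k) * π ^ 2) := by ring
    rw [e2]
    exact (Valuation.map_sub _ _ _).trans_lt (max_lt (h.trans_lt hw2) hb)
  have hle : w ((c1 : k) * π + (c2 : k) * π ^ 2) ≤ w 2 := by
    have e2 : (c1 : k) * π + (c2 : k) * π ^ 2 = ((c0 : k) + (c1 : k) * π + (c2 : k) * π ^ 2) -
        (c0 : k) := by ring
    rw [e2]
    exact (Valuation.map_sub _ _ _).trans (max_le h (even_le v h2 d0))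
  have hle2 : w ((c1 : k) + (c2 : k) * π) ≤ w π ^ 2 := by
    rw [e1, map_mul, ← g3, pow_succ'] at hle
    exact (mul_le_mul_iff_right₀ hpos).1 hle
  have d1 : (2 : ℤ) ∣ c1 := by
    apply even_of v h2
    have e2 : (c1 : k) = ((c1 : k) + (c2 : k) * π) - (c2 : k) * π := by ring
    rw [e2]
    refine (Valuation.map_sub _ _ _).trans_lt (max_lt (hle2.trans_lt ?_) ?_)
    · exact pow_lt_one' g1 (by norm_num)
    · rw [map_mul]
      exact (mul_le_of_le_one_left' (val_int v c2)).trans_lt g1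
  have hle3 : w ((c2 : k) * π) ≤ w π ^ 2 := by
    have e2 : (c2 : k) * π = ((c1 : k) + (c2 : k) * π) - (c1 : k) := by ring
    rw [e2]
    refine (Valuation.map_sub _ _ _).trans (max_le hle2 ?_)
    refine (even_le v h2 d1).trans ?_
    rw [← hw, ← g3]
    exact pow_le_pow_right_of_le_one' g1.le (by norm_num)
  have d2 : (2 : ℤ) ∣ c2 := by
    apply even_of v h2
    rw [map_mul, pow_two] at hle3
    exact ((mul_le_mul_iff_left₀ hpos).1 hle3).trans_lt g1
  exact ⟨d0, d1, d2⟩

theorem steps (j : ℕ) : ∀ x : ℤ × ℤ × ℤ, v.valuation k (ev (α - 1) x) ≤ v.valuation k 2 ^ j →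
    ∃ y : ℤ × ℤ × ℤ, x = ((2 : ℤ) ^ j * y.1, (2 : ℤ) ^ j * y.2.1, (2 : ℤ) ^ j * y.2.2) := by
  induction j with
  | zero =>
    intro x _
    exact ⟨x, by simp⟩
  | succ j ih =>
    intro x hx
    have hw2 := val_two v h2
    obtain ⟨⟨t0, h0⟩, ⟨t1, h1⟩, ⟨t2, h3⟩⟩ := step hα v h2 (x := x) (hx.trans (by
      rw [pow_succ]
      exact mul_le_of_le_one_left' (pow_le_one' hw2.le j)))
    have e : ev (α - 1) x = 2 * ev (α - 1) (t0, t1, t2) := by
      unfold ev
      rw [h0, h1, h3]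
      push_cast
      ring
    rw [e, map_mul, pow_succ'] at hx
    have hpos : 0 < v.valuation k 2 :=
      zero_lt_iff.2 ((Valuation.ne_zero_iff (v.valuation k)).2 (two_ne_zero (α := k)))
    obtain ⟨y, hy⟩ := ih _ ((mul_le_mul_iff_right₀ hpos).1 hx)
    simp only [Prod.mk.injEq] at hy
    refine ⟨y, ?_⟩
    rw [Prod.ext_iff, Prod.ext_iff]
    refine ⟨?_, ?_, ?_⟩
    · rw [h0, hy.1]
      ring
    · rw [h1, hy.2.1]
      ring
    · rw [h3, hy.2.2]
      ring

theorem ev_zero {x : ℤ × ℤ × ℤ} (hx : ev (α - 1) x = 0) : x = (0, 0, 0) := by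
  have key : ∀ j : ℕ, (2 : ℤ) ^ j ∣ x.1 ∧ (2 : ℤ) ^ j ∣ x.2.1 ∧ (2 : ℤ) ^ j ∣ x.2.2 := by
    intro j
    obtain ⟨y, hy⟩ := steps hα v h2 j x (by rw [hx, map_zero]; exact zero_le)
    rw [hy]
    exact ⟨Dvd.intro _ rfl, Dvd.intro _ rfl, Dvd.intro _ rfl⟩
  have hz : ∀ z : ℤ, (∀ j : ℕ, (2 : ℤ) ^ j ∣ z) → z = 0 := by
    intro z hz
    by_contra h0
    have h1 := Int.le_of_dvd (abs_pos.2 h0) ((dvd_abs _ _).2 (hz z.natAbs))
    have h3 : (z.natAbs : ℤ) < 2 ^ z.natAbs := by exact_mod_cast Nat.lt_two_pow_self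
    rw [Int.abs_eq_natAbs] at h1
    omega
  rw [Prod.ext_iff, Prod.ext_iff]
  exact ⟨hz _ fun j => (key j).1, hz _ fun j => (key j).2.1, hz _ fun j => (key j).2.2⟩

theorem span_all (hk : finrank ℚ k = 3) (y : k) : ∃ (d : ℤ) (x : ℤ × ℤ × ℤ), d ≠ 0 ∧
    (d : k) * y = ev (α - 1) x := by
  have li : LinearIndependent ℤ ![(1 : k), α - 1, (α - 1) ^ 2] := by
    rw [Fintype.linearIndependent_iff]
    intro g hg
    rw [Fin.sum_univ_three] at hg
    have h3 : ev (α - 1) (g 0, g 1, g 2) = 0 := by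
      unfold ev
      rw [← hg]
      simp [zsmul_eq_mul]
    have h4 := ev_zero hα v h2 h3
    simp only [Prod.mk.injEq] at h4
    intro i
    fin_cases i
    · exact h4.1
    · exact h4.2.1
    · exact h4.2.2
  have li' : LinearIndependent ℚ ![(1 : k), α - 1, (α - 1) ^ 2] :=
    (LinearIndependent.iff_fractionRing ℤ ℚ).1 li
  let b := basisOfLinearIndependentOfCardEqFinrank li' (by rw [Fintype.card_fin, hk])
  have hb : ∀ i, b i = ![(1 : k), α - 1, (α - 1) ^ 2] i := fun i => by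
    rw [coe_basisOfLinearIndependentOfCardEqFinrank]
  have hy := b.sum_repr y
  rw [Fin.sum_univ_three, hb, hb, hb] at hy
  change b.repr y 0 • (1 : k) + b.repr y 1 • (α - 1) + b.repr y 2 • (α - 1) ^ 2 = y at hy
  generalize b.repr y 0 = q0 at hy
  generalize b.repr y 1 = q1 at hy
  generalize b.repr y 2 = q2 at hy
  refine ⟨q0.den * q1.den * q2.den, (q0.num * q1.den * q2.den, q1.num * q0.den * q2.den,
    q2.num * q0.den * q1.den), by positivity, ?_⟩
  unfold ev
  rw [← hy]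
  have e : ∀ q : ℚ, ((q : ℚ) : k) * (q.den : k) = (q.num : k) := fun q => by
    have := q.mul_den_eq_num
    exact_mod_cast congrArg (fun t : ℚ => (t : k)) this
  simp only [Algebra.smul_def, eq_ratCast]
  push_cast
  linear_combination (q1.den : k) * q2.den * e q0 + (q0.den : k) * q2.den * (α - 1) * e q1 +
    (q0.den : k) * q1.den * (α - 1) ^ 2 * e q2

/-- integral elements at `v` -/
theorem span_int (hk : finrank ℚ k = 3) {y : k} (hy : v.valuation k y ≤ 1) :
    ∃ (d : ℤ) (x : ℤ × ℤ × ℤ), ¬ (2 : ℤ) ∣ d ∧ (d : k) * y = ev (α - 1) x := by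
  obtain ⟨d, x, hd, hx⟩ := span_all hα v h2 hk y
  have hfin : FiniteMultiplicity (2 : ℤ) d := Int.finiteMultiplicity_iff.2 ⟨by norm_num, hd⟩
  obtain ⟨e, hde, he⟩ := hfin.exists_eq_pow_mul_and_not_dvd
  generalize multiplicity (2 : ℤ) d = t at hde
  have h1 : v.valuation k (ev (α - 1) x) ≤ v.valuation k 2 ^ t := by
    rw [← hx, hde]
    push_cast
    rw [map_mul, map_mul, map_pow, mul_assoc]
    exact mul_le_of_le_one_right' (mul_le_one' (val_int v e) hy)
  obtain ⟨z, hz⟩ := steps hα v h2 t x h1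
  refine ⟨e, z, he, ?_⟩
  have h3 : (2 : k) ^ t * ((e : k) * y) = 2 ^ t * ev (α - 1) z := by
    have h4 := hx
    rw [hde, hz] at h4
    unfold ev at h4 ⊢
    push_cast at h4
    linear_combination h4
  exact mul_left_cancel₀ (pow_ne_zero _ two_ne_zero) h3

/-- the unit classes are not squares modulo `4` up to squares -/
theorem main (hk : finrank ℚ k = 3) (i : Fin 7) (hx1 : v.valuation k (ev (α - 1) (cls i)) = 1) :
    ¬ Un v (ev (α - 1) (cls i)) := by
  rintro ⟨y, hy1, hy2⟩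
  have hy : v.valuation k y ≤ 1 := by
    rw [map_mul, hx1, one_mul, map_pow] at hy1
    by_contra h
    have := one_lt_pow' (not_le.1 h) (two_ne_zero (α := ℕ))
    rw [hy1] at this
    exact lt_irrefl _ this
  obtain ⟨d, c, hd, hc⟩ := span_int hα v h2 hk hy
  have h4 : v.valuation k (4 : k) = v.valuation k 2 ^ 2 := by
    rw [← map_pow]
    norm_num
  have hw2 := val_two v h2
  have key : v.valuation k (ev (α - 1) (cls i) * (ev (α - 1) c * ev (α - 1) c) - 1) ≤
      v.valuation k 2 ^ 2 := by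
    have e1 : ev (α - 1) (cls i) * (ev (α - 1) c * ev (α - 1) c) - 1 =
        (d : k) ^ 2 * (ev (α - 1) (cls i) * y ^ 2 - 1) + ((d : k) ^ 2 - 1) := by
      rw [← hc]
      ring
    rw [e1]
    refine (Valuation.map_add _ _ _).trans (max_le ?_ ?_)
    · rw [map_mul, map_pow, odd_eq v h2 hd, one_pow, one_mul, ← h4]
      exact hy2
    · obtain ⟨s, hs⟩ : ∃ s : ℤ, d = 2 * s + 1 := ⟨d / 2, by omega⟩
      have e2 : (d : k) ^ 2 - 1 = 2 ^ 2 * ((s * s + s : ℤ) : k) := by
        rw [hs]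
        push_cast
        ring
      rw [e2, map_mul, map_pow]
      exact mul_le_of_le_one_right' (val_int v _)
  rw [← ev_mul (pi_eq hα), ← ev_mul (pi_eq hα)] at key
  have e3 : ev (α - 1) (mulT (cls i) (mulT c c)) - 1 =
      ev (α - 1) ((mulT (cls i) (mulT c c)).1 - 1, (mulT (cls i) (mulT c c)).2.1,
        (mulT (cls i) (mulT c c)).2.2) := by
    unfold ev
    push_cast
    ring
  rw [e3] at key
  obtain ⟨z, hz⟩ := steps hα v h2 2 _ key
  simp only [Prod.mk.injEq] at hz
  obtain ⟨z0, z1, z2⟩ := hz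
  have hred : red (mulT (cls i) (mulT c c)) = (1, 0, 0) := by
    have f4 : ((4 : ℤ) : ZMod 4) = 0 := by decide
    unfold red
    rw [Prod.ext_iff, Prod.ext_iff]
    refine ⟨?_, ?_, ?_⟩
    · have : (mulT (cls i) (mulT c c)).1 = 4 * z.1 + 1 := by linarith
      show (((mulT (cls i) (mulT c c)).1 : ℤ) : ZMod 4) = 1
      rw [this]
      push_cast [f4]
      rw [show ((4 : ZMod 4)) = 0 from by decide]
      ring
    · have : (mulT (cls i) (mulT c c)).2.1 = 4 * z.2.1 := by linarith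
      show (((mulT (cls i) (mulT c c)).2.1 : ℤ) : ZMod 4) = 0
      rw [this]
      push_cast
      rw [show ((4 : ZMod 4)) = 0 from by decide]
      ring
    · have : (mulT (cls i) (mulT c c)).2.2 = 4 * z.2.2 := by linarith
      show (((mulT (cls i) (mulT c c)).2.2 : ℤ) : ZMod 4) = 0
      rw [this]
      push_cast
      rw [show ((4 : ZMod 4)) = 0 from by decide]
      ring
  rw [red_mul, red_mul] at hred
  exact check i c.1 c.2.1 c.2.2 hred

end val

theorem t_EXN : S_EXN := by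
  intro k _ _ α hk hα a b c ha hb hc hne v h2
  have ua : v.valuation k α = 1 := by
    have h1 := val_alpha hα v
    have h3 : v.valuation k (3 + α - α ^ 2) ≤ 1 := by
      refine (Valuation.map_sub _ _ _).trans (max_le ?_ ?_)
      · refine (Valuation.map_add _ _ _).trans (max_le ?_ h1)
        have := val_int v (k := k) 3
        simpa using this
      · rw [map_pow]
        exact pow_le_one' h1 2
    have h4 : v.valuation k α * v.valuation k (3 + α - α ^ 2) = 1 := by
      rw [← map_mul]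
      have : α * (3 + α - α ^ 2) = 1 := by linear_combination -hα
      rw [this, map_one]
    refine le_antisymm h1 ?_
    rw [← h4]
    exact mul_le_of_le_one_right' h3
  have ub : v.valuation k (α - 2) = 1 := by
    have h1 : v.valuation k (α - 2) ≤ 1 := by
      refine (Valuation.map_sub _ _ _).trans (max_le ua.le ?_)
      have := val_int v (k := k) 2
      simpa using this
    have h3 : v.valuation k (α ^ 2 + α - 1) ≤ 1 := by
      refine (Valuation.map_sub _ _ _).trans (max_le ?_ ?_)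
      · refine (Valuation.map_add _ _ _).trans (max_le ?_ ua.le)
        rw [map_pow, ua, one_pow]
      · rw [map_one]
    have h4 : v.valuation k (α - 2) * v.valuation k (α ^ 2 + α - 1) = 1 := by
      rw [← map_mul]
      have : (α - 2) * (α ^ 2 + α - 1) = 1 := by linear_combination hα
      rw [this, map_one]
    refine le_antisymm h1 ?_
    rw [← h4]
    exact mul_le_of_le_one_right' h3
  have un : v.valuation k ((-1 : k) ^ a * α ^ b * (α - 2) ^ c) = 1 := by
    rw [map_mul, map_mul, map_pow, map_pow, map_pow, ua, ub, Valuation.map_neg, map_one]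
    simp
  have fin : ∀ i : Fin 7, (-1 : k) ^ a * α ^ b * (α - 2) ^ c = ev (α - 1) (cls i) →
      ¬ Un v ((-1) ^ a * α ^ b * (α - 2) ^ c) := by
    intro i hi
    rw [hi]
    rw [hi] at un
    exact main hα v h2 hk i un
  interval_cases a <;> interval_cases b <;> interval_cases c
  · exact absurd ⟨rfl, rfl, rfl⟩ hne
  · exact fin 0 (by simp only [ev, cls]; push_cast; ring)
  · exact fin 1 (by simp only [ev, cls]; push_cast; ring)
  · exact fin 2 (by simp only [ev, cls]; push_cast; ring)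
  · exact fin 3 (by simp only [ev, cls]; push_cast; ring)
  · exact fin 4 (by simp only [ev, cls]; push_cast; ring)
  · exact fin 5 (by simp only [ev, cls]; push_cast; ring)
  · exact fin 6 (by simp only [ev, cls]; push_cast; ring)

end Pool.Agent.N667.LT
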