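import Mathlib
import Pool.Agent.N848.LT.Stm2

/-!
Project LT, QDR: quadratic fields (helper667).
-/

set_option autoImplicit false

namespace Pool.Agent.N667.LT

open NumberField IsDedekindDomain Module

section
variable {A : Type} [Field A] [CharZero A] [Algebra ℚ A]

lemma int_of_rat {y : A} (hy : IsIntegral ℤ y) {r : ℚ} (h : algebraMap ℚ A r = y) :
    ∃ m : ℤ, y = m := by
  rw [← h] at hy
  have h1 : IsIntegral ℤ r := (isIntegral_algebraMap_iff (algebraMap ℚ A).injective).1 hy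
  obtain ⟨m, hm⟩ := IsIntegrallyClosed.isIntegral_iff.1 h1
  refine ⟨m, ?_⟩
  rw [← h, ← hm]
  simp

lemma dvd_int {q m : ℤ} (h : (q : 𝓞 A) ∣ (m : 𝓞 A)) : q ∣ m := by
  obtain ⟨z, hz⟩ := h
  by_cases hq : q = 0
  · rw [hq, Int.cast_zero, zero_mul, Int.cast_eq_zero] at hz
    rw [hz]
    exact dvd_zero _
  have h1 : (m : A) = q * (algebraMap (𝓞 A) A z) := by
    have := congrArg (algebraMap (𝓞 A) A) hz
    rwa [map_mul, map_intCast, map_intCast] at this
  have hqA : (q : A) ≠ 0 := Int.cast_ne_zero.2 hq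
  have h2 : algebraMap ℚ A ((m : ℚ) / q) = algebraMap (𝓞 A) A z := by
    rw [map_div₀, map_intCast, map_intCast, h1, mul_div_cancel_left₀ _ hqA]
  obtain ⟨k, hk⟩ := int_of_rat (RingOfIntegers.isIntegral_coe z) h2
  refine ⟨k, ?_⟩
  rw [hk] at h1
  exact_mod_cast h1

lemma rad_int {q : ℕ} (hq : q.Prime) {m : ℤ}
    (h : (m : 𝓞 A) ∈ (Ideal.span {(q : 𝓞 A)}).radical) : (q : ℤ) ∣ m := by
  obtain ⟨n, hn⟩ := h
  rw [Ideal.mem_span_singleton] at hn
  have h1 : (((q : ℤ) : ℤ) : 𝓞 A) ∣ ((m ^ n : ℤ) : 𝓞 A) := by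
    push_cast
    exact hn
  exact (Nat.prime_iff_prime_int.1 hq).dvd_of_dvd_pow (dvd_int h1)

/-- `c ^ 2 t` is an integer divisible by `q` -/
lemma sq_dvd {q : ℕ} (hq : q.Prime) {t D : ℤ} (hqt : ¬ (q : ℤ) ∣ t) {c : ℚ} (h : (D : ℚ) = c ^ 2 * t)
    (hD : (q : ℤ) ∣ D) : (q : ℤ) ^ 2 ∣ D := by
  have hq' := Nat.prime_iff_prime_int.1 hq
  have hw : (c.den : ℚ) ≠ 0 := by exact_mod_cast c.den_nz
  have h1 : D * (c.den : ℤ) ^ 2 = c.num ^ 2 * t := by
    have h2 : (D : ℚ) * (c.den : ℚ) ^ 2 = (c.num : ℚ) ^ 2 * t := by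
      rw [h]
      nth_rewrite 1 [← Rat.num_div_den c]
      field_simp
    exact_mod_cast h2
  have h3 : (q : ℤ) ∣ c.num := by
    have h4 : (q : ℤ) ∣ c.num ^ 2 * t := by
      rw [← h1]
      exact hD.mul_right _
    rcases hq'.dvd_or_dvd h4 with h5 | h5
    · exact hq'.dvd_of_dvd_pow h5
    · exact absurd h5 hqt
  have h6 : (q : ℤ) ^ 2 ∣ D * (c.den : ℤ) ^ 2 := by
    rw [h1]
    exact (pow_dvd_pow_of_dvd h3 2).mul_right _
  have h7 : IsCoprime ((q : ℤ) ^ 2) ((c.den : ℤ) ^ 2) := by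
    apply IsCoprime.pow
    rw [Int.isCoprime_iff_gcd_eq_one]
    have h8 := c.reduced
    by_contra h9
    have h10 : (q : ℤ) ∣ (c.den : ℤ) := by
      by_contra h11
      apply h9
      rw [← Int.isCoprime_iff_gcd_eq_one]
      exact (Prime.coprime_iff_not_dvd hq').2 h11
    have h12 : q ∣ c.den := by exact_mod_cast h10
    have h13 : q ∣ c.num.natAbs := by
      rw [← Int.natCast_dvd]
      exact h3
    have h14 := Nat.dvd_gcd h13 h12
    rw [Nat.Coprime] at h8
    rw [h8] at h14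
    exact hq.one_lt.ne' (Nat.dvd_one.1 h14)
  exact h7.dvd_of_dvd_mul_right h6

theorem rad_quad [FiniteDimensional ℚ A] [IsGalois ℚ A] {s : A} {t : ℤ} (hs : s ^ 2 = (t : A))
    (hgen : ∀ h k : A ≃ₐ[ℚ] A, h s = k s → h = k) {q : ℕ} (hq : q.Prime) (hqt : ¬ (q : ℤ) ∣ 2 * t) :
    (Ideal.span {(q : 𝓞 A)}).IsRadical := by
  have hfix : ∀ y : 𝓞 A, (∀ h : A ≃ₐ[ℚ] A, h (algebraMap (𝓞 A) A y) = algebraMap (𝓞 A) A y) →
      ∃ m : ℤ, y = (m : 𝓞 A) := by
    intro y hy
    have h1 := (IsGalois.mem_bot_iff_fixed (F := ℚ) (E := A) (algebraMap (𝓞 A) A y)).2 hy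
    obtain ⟨r, hr⟩ := IntermediateField.mem_bot.1 h1
    obtain ⟨m, hm⟩ := int_of_rat (RingOfIntegers.isIntegral_coe y) hr
    refine ⟨m, ?_⟩
    apply RingOfIntegers.coe_injective
    rw [hm, map_intCast]
  intro x hx
  by_cases hg : ∃ g : A ≃ₐ[ℚ] A, g s ≠ s
  · obtain ⟨g, hg⟩ := hg
    have hsgn : ∀ h : A ≃ₐ[ℚ] A, h s = s ∨ h s = -s := by
      intro h
      have h1 : (h s) ^ 2 = s ^ 2 := by
        rw [← map_pow, hs, map_intCast]
      exact sq_eq_sq_iff_eq_or_eq_neg.1 h1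
    have hgs : g s = -s := (hsgn g).resolve_left hg
    have hs0 : s ≠ 0 := by
      rintro rfl
      exact hg (map_zero g)
    have hall : ∀ h : A ≃ₐ[ℚ] A, h = 1 ∨ h = g := by
      intro h
      rcases hsgn h with h1 | h1
      · left
        apply hgen
        rw [h1]
        rfl
      · right
        apply hgen
        rw [h1, hgs]
    have hgg : ∀ y : A, g (g y) = y := by
      intro y
      have h1 : g * g = 1 := by
        apply hgen
        rw [AlgEquiv.mul_apply, hgs, map_neg, hgs, neg_neg]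
        rfl
      have h2 := congrArg (fun k : A ≃ₐ[ℚ] A => k y) h1
      exact h2
    -- the conjugate
    obtain ⟨x', hx'⟩ : ∃ x' : 𝓞 A, algebraMap (𝓞 A) A x' = g (algebraMap (𝓞 A) A x) :=
      ⟨RingOfIntegers.mapRingHom (g : A →+* A) x, rfl⟩
    have hx'r : x' ∈ (Ideal.span {(q : 𝓞 A)}).radical := by
      obtain ⟨n, hn⟩ := hx
      rw [Ideal.mem_span_singleton] at hn
      refine ⟨n, Ideal.mem_span_singleton.2 ?_⟩
      have h1 := map_dvd (RingOfIntegers.mapRingHom (g : A →+* A)) hn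
      rw [map_natCast, map_pow] at h1
      have h2 : x' = RingOfIntegers.mapRingHom (g : A →+* A) x := by
        apply RingOfIntegers.coe_injective
        rw [hx']
        rfl
      rw [h2]
      exact h1
    obtain ⟨m, hm⟩ := hfix (x + x') (by
      intro h
      rw [map_add, hx', map_add]
      rcases hall h with rfl | rfl
      · rfl
      · rw [hgg, add_comm])
    obtain ⟨D, hD⟩ := hfix ((x - x') ^ 2) (by
      intro h
      rw [map_pow, map_sub, hx', map_pow, map_sub]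
      rcases hall h with rfl | rfl
      · rfl
      · rw [hgg]
        ring)
    have hqm : (q : ℤ) ∣ m := rad_int hq (A := A) (by
      rw [← hm]
      exact Ideal.add_mem _ hx hx'r)
    have hqD : (q : ℤ) ∣ D := rad_int hq (A := A) (by
      rw [← hD, pow_two]
      exact Ideal.mul_mem_left _ _ (Ideal.sub_mem _ hx hx'r))
    -- the rational number `(x - x') / s`
    obtain ⟨c, hc⟩ : ∃ c : ℚ, algebraMap ℚ A c = (algebraMap (𝓞 A) A x - algebraMap (𝓞 A) A x') / s := by
      have h1 := (IsGalois.mem_bot_iff_fixed (F := ℚ) (E := A) ((algebraMap (𝓞 A) A x - algebraMap (𝓞 A) A x') / s)).2 (by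
        intro h
        rw [map_div₀, map_sub, hx']
        rcases hall h with rfl | rfl
        · rfl
        · rw [hgg, hgs, div_neg, ← neg_div, neg_sub])
      exact IntermediateField.mem_bot.1 h1
    have hDA : (algebraMap (𝓞 A) A x - algebraMap (𝓞 A) A x') ^ 2 = (D : A) := by
      have := congrArg (algebraMap (𝓞 A) A) hD
      rwa [map_pow, map_sub, map_intCast] at this
    have hDc : (D : ℚ) = c ^ 2 * t := by
      apply (algebraMap ℚ A).injective
      rw [map_mul, map_pow, hc, map_intCast, map_intCast, ← hDA, div_pow, hs,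
        div_mul_cancel₀]
      rw [← hs]
      exact pow_ne_zero 2 hs0
    have hq2 : ¬ (q : ℤ) ∣ 2 := fun h => hqt (h.mul_right _)
    obtain ⟨E, hE⟩ := sq_dvd hq (fun h => hqt (h.mul_left _)) hDc hqD
    have hqA : (q : A) ≠ 0 := Nat.cast_ne_zero.2 hq.ne_zero
    have hint : IsIntegral ℤ ((algebraMap (𝓞 A) A x - algebraMap (𝓞 A) A x') / q) := by
      apply IsIntegral.of_pow (n := 2) two_pos
      rw [div_pow, hDA, hE]
      push_cast
      rw [mul_div_cancel_left₀ _ (pow_ne_zero 2 hqA)]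
      exact isIntegral_algebraMap (R := ℤ) (x := E)
    have h1 : (q : 𝓞 A) ∣ x - x' := by
      obtain ⟨z, hz⟩ : ∃ z : 𝓞 A, algebraMap (𝓞 A) A z =
          (algebraMap (𝓞 A) A x - algebraMap (𝓞 A) A x') / q := ⟨⟨_, hint⟩, rfl⟩
      refine ⟨z, ?_⟩
      apply RingOfIntegers.coe_injective
      rw [map_sub, map_mul, map_natCast, hz, mul_div_cancel₀ _ hqA]
    have h2 : (q : 𝓞 A) ∣ x + x' := by
      rw [hm]
      have := map_dvd (Int.castRingHom (𝓞 A)) hqm
      simpa using this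
    have h3 : (q : 𝓞 A) ∣ 2 * x := by
      have := dvd_add h1 h2
      rwa [sub_add_add_cancel, ← two_mul] at this
    obtain ⟨u, v, huv⟩ := (Prime.coprime_iff_not_dvd (Nat.prime_iff_prime_int.1 hq)).2 hq2
    rw [Ideal.mem_span_singleton]
    have h4 : x = (q : 𝓞 A) * ((u : 𝓞 A) * x) + (v : 𝓞 A) * (2 * x) := by
      have h5 := congrArg (fun z : ℤ => (z : 𝓞 A)) huv
      push_cast at h5
      linear_combination -x * h5
    rw [h4]
    exact dvd_add (dvd_mul_right _ _) (h3.mul_left _)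
  · push Not at hg
    obtain ⟨m, hm⟩ := hfix x (by
      intro h
      have h1 : h = 1 := hgen _ _ (by rw [hg h]; rfl)
      rw [h1]
      rfl)
    rw [hm] at hx ⊢
    rw [Ideal.mem_span_singleton]
    have := map_dvd (Int.castRingHom (𝓞 A)) (rad_int hq hx)
    simpa using this

end

theorem adj_gen {Ω : Type} [Field Ω] [CharZero Ω] (s : Ω)
    (h k : (IntermediateField.adjoin ℚ {s}) ≃ₐ[ℚ] (IntermediateField.adjoin ℚ {s}))
    (hh : h (IntermediateField.AdjoinSimple.gen ℚ s) = k (IntermediateField.AdjoinSimple.gen ℚ s)) :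
    h = k := by
  apply AlgEquiv.coe_toAlgHom_injective
  apply IntermediateField.adjoin_algHom_ext
  intro x hx
  rw [Set.mem_singleton_iff] at hx
  subst hx
  exact hh

theorem adj_galois {Ω : Type} [Field Ω] [CharZero Ω] (s : Ω) (t : ℤ) (hs : s ^ 2 = (t : Ω)) :
    FiniteDimensional ℚ (IntermediateField.adjoin ℚ {s}) ∧
      IsGalois ℚ (IntermediateField.adjoin ℚ {s}) := by
  have hint : IsIntegral ℚ s := by
    apply IsIntegral.of_pow (n := 2) two_pos
    rw [hs]
    have : (t : Ω) = algebraMap ℚ Ω (t : ℚ) := by simp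
    rw [this]
    exact isIntegral_algebraMap
  have hfd : FiniteDimensional ℚ (IntermediateField.adjoin ℚ {s}) :=
    IntermediateField.adjoin.finiteDimensional hint
  refine ⟨hfd, ?_⟩
  obtain ⟨g, hg⟩ : ∃ g : IntermediateField.adjoin ℚ {s}, g = IntermediateField.AdjoinSimple.gen ℚ s :=
    ⟨_, rfl⟩
  have hgs : g ^ 2 = (t : IntermediateField.adjoin ℚ {s}) := by
    apply Subtype.ext
    rw [hg]
    simpa using hs
  have hsp : (Polynomial.X ^ 2 - Polynomial.C (t : ℚ)).IsSplittingField ℚ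
      (IntermediateField.adjoin ℚ {s}) := by
    refine ⟨?_, ?_⟩
    · have h1 : (Polynomial.X ^ 2 - Polynomial.C (t : ℚ)).map
          (algebraMap ℚ (IntermediateField.adjoin ℚ {s})) =
          (Polynomial.X - Polynomial.C g) * (Polynomial.X - Polynomial.C (-g)) := by
        rw [Polynomial.map_sub, Polynomial.map_pow, Polynomial.map_X, Polynomial.map_C, map_intCast,
          ← hgs, Polynomial.C_neg, Polynomial.C_pow]
        ring
      rw [h1]
      exact (Polynomial.Splits.X_sub_C g).mul (Polynomial.Splits.X_sub_C (-g))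
    · have h0 : (Polynomial.X ^ 2 - Polynomial.C (t : ℚ)) ≠ 0 :=
        Polynomial.X_pow_sub_C_ne_zero two_pos _
      have h1 : g ∈ (Polynomial.X ^ 2 - Polynomial.C (t : ℚ)).rootSet
          (IntermediateField.adjoin ℚ {s}) := by
        rw [Polynomial.mem_rootSet]
        refine ⟨h0, ?_⟩
        rw [map_sub, map_pow, Polynomial.aeval_X, Polynomial.aeval_C, hgs, map_intCast, sub_self]
      rw [eq_top_iff]
      have h2 : Algebra.adjoin ℚ {g} = ⊤ := by
        rw [hg]
        have := (IntermediateField.adjoin.powerBasis hint).adjoin_gen_eq_top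
        rwa [IntermediateField.adjoin.powerBasis_gen] at this
      rw [← h2]
      exact Algebra.adjoin_mono (Set.singleton_subset_iff.2 h1)
  have hn : Normal ℚ (IntermediateField.adjoin ℚ {s}) :=
    Normal.of_isSplittingField (Polynomial.X ^ 2 - Polynomial.C (t : ℚ))
  exact ⟨⟩

theorem t_QDR : Pool.Agent.N848.LT.S_QDR := by
  intro Ω _ _ s t hs
  obtain ⟨hfd, hgal⟩ := adj_galois s t hs
  obtain ⟨g0, hg0⟩ : ∃ g : IntermediateField.adjoin ℚ {s}, g = IntermediateField.AdjoinSimple.gen ℚ s :=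
    ⟨_, rfl⟩
  have hgs : g0 ^ 2 = (t : IntermediateField.adjoin ℚ {s}) := by
    apply Subtype.ext
    rw [hg0]
    simpa using hs
  have hgen : ∀ h k : (IntermediateField.adjoin ℚ {s}) ≃ₐ[ℚ] (IntermediateField.adjoin ℚ {s}),
      h g0 = k g0 → h = k := by
    rw [hg0]
    exact adj_gen s
  have hsq : ∀ g : (IntermediateField.adjoin ℚ {s}) ≃ₐ[ℚ] (IntermediateField.adjoin ℚ {s}),
      g ^ 2 = 1 := by
    intro g
    apply hgen
    rw [pow_two, AlgEquiv.mul_apply]
    have h1 : (g g0) ^ 2 = g0 ^ 2 := by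
      rw [← map_pow, hgs, map_intCast]
    rcases sq_eq_sq_iff_eq_or_eq_neg.1 h1 with h2 | h2
    · rw [h2, h2]
      rfl
    · rw [h2, map_neg, h2, neg_neg]
      rfl
  refine ⟨⟨hgal, fun g h => ?_, hsq⟩, hfd, fun q hq hqt => ?_⟩
  · have hi : ∀ g : (IntermediateField.adjoin ℚ {s}) ≃ₐ[ℚ] (IntermediateField.adjoin ℚ {s}),
        g⁻¹ = g := fun g => inv_eq_of_mul_eq_one_left (by rw [← pow_two]; exact hsq g)
    rw [← hi (g * h), mul_inv_rev, hi, hi]
  · exact rad_quad hgs hgen hq hqt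

end Pool.Agent.N667.LT
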